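import Pool.Agent.J4H26.KP.Sup
import Pool.Agent.J4H39.V4
import Pool.Agent.J4H39.L2

/-!
# Two walks which start far apart do not meet (project KP, P1 and P2)
-/

set_option autoImplicit false

namespace Pool.Agent.J4H98.KP

open Finset Filter Real
open Pool.Agent.J4H39
open Pool.Agent.J4H26.KP

theorem Erf_pos {g : ℝ} (hg : 0 < g) : 0 < Erf g := by
  unfold Erf
  apply mul_pos (by positivity)
  apply intervalIntegral.intervalIntegral_pos_of_pos _ (fun x => Real.exp_pos _) hg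
  exact (by fun_prop : Continuous fun u : ℝ => Real.exp (-u ^ 2)).intervalIntegrable _ _

/-- a lower bound for `U` -/
theorem U_ge {g : ℝ} (hg : 0 < g) {ε : ℝ} (hε : 0 < ε) :
    ∀ᶠ k : ℕ in atTop, ∀ d : ℤ, g * √k ≤ |(d : ℝ)| → Erf g - ε ≤ U (2 * k) (2 * d) := by
  obtain ⟨q₀, hq⟩ := U_erf hε
  filter_upwards [eventually_ge_atTop (max q₀ 1)] with k hk d hd
  have hk1 : 1 ≤ k := (le_max_right _ _).trans hk
  have hk0 : (0 : ℝ) < k := by exact_mod_cast hk1
  have hsq : 0 < √(k : ℝ) := Real.sqrt_pos.2 hk0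
  have h1 := hq (2 * k) (by have := (le_max_left q₀ 1).trans hk; omega) (2 * d).natAbs
  rw [← U_abs (2 * k) (2 * d)] at h1
  have h2 : (((2 * d).natAbs : ℕ) : ℝ) = 2 * |(d : ℝ)| := by
    rw [Nat.cast_natAbs]
    push_cast
    rw [abs_mul, abs_two]
  have h3 : √(2 * ((2 * k : ℕ) : ℝ)) = 2 * √(k : ℝ) := by
    have e : 2 * ((2 * k : ℕ) : ℝ) = 2 ^ 2 * (k : ℝ) := by push_cast; ring
    rw [e, Real.sqrt_mul (by norm_num), Real.sqrt_sq (by norm_num)]
  rw [h2, h3] at h1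
  have h4 : 2 * |(d : ℝ)| / (2 * √(k : ℝ)) = |(d : ℝ)| / √(k : ℝ) := by
    rw [mul_div_mul_left _ _ (two_ne_zero)]
  rw [h4] at h1
  have h5 : g ≤ |(d : ℝ)| / √(k : ℝ) := by
    rw [le_div_iff₀ hsq]
    exact hd
  have h6 := Erf_mono h5
  have h7 := (abs_le.1 h1).1
  linarith

theorem t_UL : S_UL := by
  intro g hg
  refine ⟨Erf g / 2, half_pos (Erf_pos hg), ?_⟩
  filter_upwards [U_ge hg (half_pos (Erf_pos hg))] with k hk d hd
  have := hk d hd
  linarith

theorem t_UFAR : S_UFAR := by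
  intro η hη
  have h1 : ∀ᶠ G : ℝ in atTop, 1 - η / 2 < Erf G := Erf_lim.eventually (lt_mem_nhds (by linarith))
  obtain ⟨G, hG1, hG2⟩ := (h1.and (eventually_gt_atTop 0)).exists
  refine ⟨G, hG2, ?_⟩
  filter_upwards [U_ge hG2 (half_pos hη)] with k hk d hd
  have := hk d hd
  linarith

end Pool.Agent.J4H98.KP
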