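import Pool.Agent.J4H39.KP.TL

/-!
# Few clusters are not too unlikely (project KP, part TL, T5)
-/

set_option autoImplicit false

namespace Pool.Agent.J4H98.KP

open Finset Filter Real
open Pool.Agent.J4H26.KT (cw iw isE_cw isE_iw IsE)
open Pool.Agent.J4H39.KP

/-- Jensen's inequality for the power of the number of the clusters -/
theorem jen {K : ℕ} {δ b : ℝ} (hδ0 : 0 < δ) (hδ1 : δ ≤ 1) {k s : ℕ}
    (hn : iw (cw (fun u : Fin K → ℤ => (nc u : ℝ)) k) s (fun _ => 0) ≤ b) :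
    Real.exp (-(-Real.log δ * b)) ≤ iw (cw (fun u : Fin K → ℤ => δ ^ nc u) k) s (fun _ => 0) := by
  obtain ⟨l, hl⟩ : ∃ l : ℝ, l = -Real.log δ := ⟨_, rfl⟩
  have hl0 : 0 ≤ l := by rw [hl]; have := Real.log_nonpos hδ0.le hδ1; linarith
  rw [← hl]
  have hpt : ∀ u : Fin K → ℤ, Real.exp (-(l * b)) * (1 + l * b) + (-(Real.exp (-(l * b)) * l)) * (nc u : ℝ) ≤ δ ^ nc u := by
    intro u
    have h1 : δ ^ nc u = Real.exp (-(l * nc u)) := by
      have h0 : δ = Real.exp (Real.log δ) := (Real.exp_log hδ0).symm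
      calc δ ^ nc u = Real.exp (Real.log δ) ^ nc u := by rw [← h0]
        _ = Real.exp (-(l * nc u)) := by
          rw [← Real.exp_nat_mul, hl]
          congr 1; ring
    rw [h1]
    have h2 := Real.add_one_le_exp (l * b - l * nc u)
    have h3 : Real.exp (-(l * nc u)) = Real.exp (-(l * b)) * Real.exp (l * b - l * nc u) := by
      rw [← Real.exp_add]; congr 1; ring
    rw [h3]
    calc Real.exp (-(l * b)) * (1 + l * b) + (-(Real.exp (-(l * b)) * l)) * (nc u : ℝ) =
          Real.exp (-(l * b)) * (l * b - l * nc u + 1) := by ring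
      _ ≤ _ := mul_le_mul_of_nonneg_left h2 (Real.exp_pos _).le
  have hE2 : ∀ z : Fin K → ℤ, Real.exp (-(l * b)) * (1 + l * b) + (-(Real.exp (-(l * b)) * l)) *
      cw (fun u : Fin K → ℤ => (nc u : ℝ)) k z ≤ cw (fun u : Fin K → ℤ => δ ^ nc u) k z := by
    intro z
    have h1 := (isE_cw k z).mono _ _ hpt
    rw [(isE_cw k z).add, (isE_cw k z).const, (isE_cw k z).smul] at h1
    exact h1
  have hE := isE_iw (k := K) s (fun _ => 0)
  have h1 := hE.mono _ _ hE2
  rw [hE.add, hE.const, hE.smul] at h1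
  refine le_trans ?_ h1
  have h3 : 0 ≤ Real.exp (-(l * b)) * l * (b - iw (cw (fun u : Fin K → ℤ => (nc u : ℝ)) k) s (fun _ => 0)) :=
    mul_nonneg (mul_nonneg (Real.exp_pos _).le hl0) (by linarith)
  linarith

theorem t_TLO : S_ENC → S_TLO := by
  intro hE δ ρ hδ0 hδ1 hρ
  obtain ⟨C, hC, h⟩ := hE ρ hρ
  have hl0 : 0 ≤ -Real.log δ := by have := Real.log_nonpos hδ0.le hδ1; linarith
  refine ⟨(-Real.log δ + 1) * C, by positivity, ?_⟩
  intro K hK
  filter_upwards [h K hK] with k hk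
  intro s hs hsk
  refine le_trans ?_ (jen hδ0 hδ1 (hk s hs hsk))
  apply Real.exp_le_exp.2
  have h1 : 0 ≤ C * √(Real.log K) := by positivity
  nlinarith

end Pool.Agent.J4H98.KP
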