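import Pool.Agent.J4H26.KP.Q2

/-!
# Project KP, (L6): the forms far from each other are not correlated
-/

set_option autoImplicit false

namespace Pool.Agent.J4H98.KP

open Finset Filter Real Pool.Agent.J4H26.KP
open Pool.Agent.J4H39 (th0 th0_pos th0_lt th0_gt)
open Pool.Agent.J4H26.PC (Iv Cent)

lemma wt_tendsto : Tendsto (fun L : ℕ => ⌊(L : ℝ) ^ (1 / 84 : ℝ)⌋₊) atTop atTop :=
  tendsto_nat_floor_atTop.comp ((tendsto_rpow_atTop (by norm_num)).comp tendsto_natCast_atTop_atTop)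

lemma ev_pow (c p q : ℝ) (hpq : p < q) : ∀ᶠ L : ℕ in atTop, c * (L : ℝ) ^ p ≤ (L : ℝ) ^ q := by
  have h : Tendsto (fun L : ℕ => (L : ℝ) ^ (q - p)) atTop atTop :=
    (tendsto_rpow_atTop (by linarith)).comp tendsto_natCast_atTop_atTop
  filter_upwards [h.eventually_ge_atTop c, eventually_ge_atTop 1] with L hL h1
  have h0 : (0 : ℝ) < L := by exact_mod_cast h1
  have e : (L : ℝ) ^ q = (L : ℝ) ^ (q - p) * (L : ℝ) ^ p := by
    rw [← Real.rpow_add h0]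
    congr 1
    ring
  rw [e]
  exact mul_le_mul_of_nonneg_right hL (by positivity)

/-- the integer `w` with `w ≤ L ^ (1 / 84) < w + 1` -/
lemma w_bounds {L w : ℕ} (hL : 1 ≤ L) (hw : w = ⌊(L : ℝ) ^ (1 / 84 : ℝ)⌋₊) :
    1 ≤ w ∧ (w : ℝ) ^ 84 ≤ L ∧ (L : ℝ) ≤ (2 * (w : ℝ)) ^ 84 ∧ (L : ℝ) ^ (4 / 7 : ℝ) ≤ 2 ^ 48 * (w : ℝ) ^ 48 ∧
      (w : ℝ) ^ 45 ≤ (L : ℝ) ^ (57 / 100 : ℝ) := by
  have hL1 : (1 : ℝ) ≤ L := by exact_mod_cast hL
  obtain ⟨x, hx⟩ : ∃ x : ℝ, x = (L : ℝ) ^ (1 / 84 : ℝ) := ⟨_, rfl⟩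
  have hx1 : 1 ≤ x := by
    rw [hx]
    exact Real.one_le_rpow hL1 (by norm_num)
  have hx84 : x ^ 84 = L := by
    rw [hx, ← Real.rpow_natCast, ← Real.rpow_mul (by positivity)]
    norm_num
  have hx48 : x ^ 48 = (L : ℝ) ^ (4 / 7 : ℝ) := by
    rw [hx, ← Real.rpow_natCast, ← Real.rpow_mul (by positivity)]
    norm_num
  have hx45 : x ^ 45 ≤ (L : ℝ) ^ (57 / 100 : ℝ) := by
    rw [hx, ← Real.rpow_natCast, ← Real.rpow_mul (by positivity)]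
    exact Real.rpow_le_rpow_of_exponent_le hL1 (by norm_num)
  rw [← hx] at hw
  have h1 : (w : ℝ) ≤ x := by
    rw [hw]
    exact Nat.floor_le (by linarith)
  have h2 : x < w + 1 := by
    rw [hw]
    exact Nat.lt_floor_add_one x
  have h3 : 1 ≤ w := by
    rw [hw]
    exact Nat.le_floor (by simpa using hx1)
  have h3' : (1 : ℝ) ≤ w := by exact_mod_cast h3
  have h4 : x ≤ 2 * w := by linarith
  refine ⟨h3, ?_, ?_, ?_, ?_⟩
  · rw [← hx84]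
    exact pow_le_pow_left₀ (by positivity) h1 84
  · rw [← hx84]
    exact pow_le_pow_left₀ (by linarith) h4 84
  · rw [← hx48, ← mul_pow]
    exact pow_le_pow_left₀ (by linarith) h4 48
  · exact (pow_le_pow_left₀ (by positivity) h1 45).trans hx45

/-- no forms at all -/
lemma zero_case (ε : ℝ) (hε : 0 < ε) : ∀ᶠ L : ℕ in atTop, ∀ (F : Fin 0 → ℤ → ℝ) (κ : ℝ) (μ : Fin 0 → ℝ) (X : ℝ),
    0 < X → (L : ℝ) ≤ logb 2 X → ∀ D : Fin 0 → ℕ, |ccK F κ X D (fun _ => 0) - ∏ i, μ i| ≤ ε := by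
  have h : Tendsto (fun L : ℕ => (2 : ℝ) ^ L) atTop atTop := tendsto_pow_atTop_atTop_of_one_lt (by norm_num)
  filter_upwards [h.eventually_ge_atTop (1 / ε)] with L hL F κ μ X hX hX1 D
  have hX2 : (2 : ℝ) ^ L ≤ X := by
    rw [← Real.rpow_natCast, ← Real.le_logb_iff_rpow_le (by norm_num) hX]
    exact hX1
  have h1 : (1 : ℝ) ≤ X := (one_le_pow₀ (by norm_num)).trans hX2
  unfold ccK
  simp only [univ_eq_empty, prod_empty, sum_const, nsmul_eq_mul, mul_one]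
  rw [max_eq_left h1, Int.card_Ico]
  have e1 := Int.ceil_lt_add_one (κ * X + X)
  have e2 := Int.le_ceil (κ * X + X)
  have e3 := Int.ceil_lt_add_one (κ * X)
  have e4 := Int.le_ceil (κ * X)
  have e5 : 0 ≤ ⌈κ * X + X⌉ - ⌈κ * X⌉ := sub_nonneg.2 (Int.ceil_le_ceil (by linarith))
  have e6 : (((⌈κ * X + X⌉ - ⌈κ * X⌉).toNat : ℕ) : ℝ) = (⌈κ * X + X⌉ : ℝ) - ⌈κ * X⌉ := by
    have : (((⌈κ * X + X⌉ - ⌈κ * X⌉).toNat : ℕ) : ℤ) = ⌈κ * X + X⌉ - ⌈κ * X⌉ := Int.toNat_of_nonneg e5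
    have h2 : ((((⌈κ * X + X⌉ - ⌈κ * X⌉).toNat : ℕ) : ℤ) : ℝ) = ((⌈κ * X + X⌉ - ⌈κ * X⌉ : ℤ) : ℝ) := by rw [this]
    push_cast at h2
    exact h2
  rw [e6]
  have e7 : ((⌈κ * X + X⌉ : ℝ) - ⌈κ * X⌉) / X - 1 = ((⌈κ * X + X⌉ : ℝ) - ⌈κ * X⌉ - X) / X := by
    field_simp
  rw [e7, abs_div, abs_of_pos hX, div_le_iff₀ hX]
  have e8 : |(⌈κ * X + X⌉ : ℝ) - ⌈κ * X⌉ - X| ≤ 1 := by
    rw [abs_le]
    constructor <;> linarith
  refine e8.trans ?_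
  have e9 : 1 / ε ≤ X := hL.trans hX2
  rw [div_le_iff₀ hε] at e9
  linarith

theorem t_UNM2 (hEEC : S_EEC2) (hEEG : S_EEG2) (hGMU : S_GMU) (hSHF : S_SHF) : S_UNM2 := by
  intro ψ hψ K ε hε
  rcases Nat.eq_zero_or_pos K with hK | hK
  · subst hK
    refine ⟨1, one_pos, ?_⟩
    filter_upwards [zero_case ε hε] with L hL F κ μ _ X hX hX1 _ D _ _
    exact hL F κ μ X hX hX1 D
  obtain ⟨η₀, hη₀, h3⟩ := hGMU ψ hψ K (ε / 4) (by positivity)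
  obtain ⟨η, hη, hη1, hη2⟩ : ∃ η : ℝ, 0 < η ∧ η < η₀ ∧ η ≤ 1 / 4 := by
    refine ⟨min (η₀ / 2) (1 / 4), by positivity, ?_, min_le_right _ _⟩
    exact (min_le_left _ _).trans_lt (by linarith)
  have hρ : 1 < 1 / (1 - η) := by
    rw [lt_div_iff₀ (by linarith)]
    linarith
  obtain ⟨G, hG, h1⟩ := hEEC K (1 / (1 - η)) (ε / 4) hρ (by positivity)
  have h2 := hEEG K (ε / 4) (by positivity)
  obtain ⟨t₀, ht₀⟩ := eventually_atTop.1 h1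
  obtain ⟨M₁, hM₁⟩ := eventually_atTop.1 (h3 η hη hη1)
  obtain ⟨M₂, hM₂⟩ := eventually_atTop.1 (hSHF K (ε / 4) (by positivity))
  refine ⟨5 * G, by positivity, ?_⟩
  have hw4 : ∀ᶠ w : ℕ in atTop, 24 / η ≤ (w : ℝ) ^ 4 :=
    ((tendsto_pow_atTop (α := ℝ) (n := 4) (by norm_num)).comp tendsto_natCast_atTop_atTop).eventually_ge_atTop _
  filter_upwards [wt_tendsto.eventually h2, wt_tendsto.eventually hw4,
    wt_tendsto.eventually (eventually_ge_atTop (2 ^ 21)), ev_pow 16 (57 / 100) 1 (by norm_num),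
    ev_pow 20 (14 / 25) (57 / 100) (by norm_num), ev_pow 3 (57 / 100) (29 / 50) (by norm_num),
    ev_pow (6 * 2 ^ 48) (57 / 100) (4 / 7) (by norm_num), ev_pow 9 (57 / 100) (3 / 5) (by norm_num),
    eventually_ge_atTop t₀, eventually_ge_atTop (2 * M₁), eventually_ge_atTop (2 * M₂), eventually_ge_atTop 3]
    with L h2 hw4 hw21 p1 p2 p3 p4 p5 hLt hLM1 hLM2 hL3 F κ μ hF X₀ hX₀ hX1 hX2 D₀ hD1 hD2
  have hL1 : 1 ≤ L := by omega
  obtain ⟨w, hw⟩ : ∃ w, w = ⌊(L : ℝ) ^ (1 / 84 : ℝ)⌋₊ := ⟨_, rfl⟩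
  rw [← hw] at h2 hw4 hw21
  obtain ⟨w1, w2, w3, w4, w5⟩ := w_bounds hL1 hw
  have hIv : ∀ i, Iv (F i) := fun i => (hF i).1
  have hκ : |κ| ≤ 1 := by
    obtain ⟨-, -, q, hq⟩ := hF ⟨0, hK⟩
    exact hq.kp
  have hth := th0_pos
  have hth4 := th0_lt
  have hth5 := th0_gt
  have hw1 : (1 : ℝ) ≤ w := by exact_mod_cast w1
  have hw21' : (2 : ℝ) ^ 21 ≤ w := by exact_mod_cast hw21
  have hL1' : (1 : ℝ) ≤ L := by exact_mod_cast hL1
  obtain ⟨A, hA⟩ : ∃ A : ℝ, A = (L : ℝ) ^ (57 / 100 : ℝ) := ⟨_, rfl⟩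
  rw [Real.rpow_one] at p1
  rw [← hA] at p1 p2 p3 p4 p5 w5
  have hA1 : 1 ≤ A := by
    rw [hA]
    exact Real.one_le_rpow hL1' (by norm_num)
  -- the common shift
  obtain ⟨a, ha⟩ : ∃ a : ℕ, a = ⌈A⌉₊ := ⟨_, rfl⟩
  have ha1 : A ≤ a := by rw [ha]; exact Nat.le_ceil A
  have ha2 : (a : ℝ) ≤ 2 * A := by
    have : (a : ℝ) < A + 1 := by rw [ha]; exact Nat.ceil_lt_add_one (by linarith)
    linarith
  obtain ⟨X, hXd⟩ : ∃ X : ℝ, X = X₀ / 3 ^ a := ⟨_, rfl⟩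
  have hX : 0 < X := by rw [hXd]; positivity
  have hX3 : (3 : ℝ) ^ a * X = X₀ := by
    rw [hXd]
    field_simp
  obtain ⟨D, hDd⟩ : ∃ D : Fin K → ℕ, D = fun i => D₀ i + a := ⟨_, rfl⟩
  have hDa : ∀ i, (D i : ℝ) = D₀ i + a := fun i => by rw [hDd]; push_cast; ring
  have hD3 : ∀ i, A ≤ D i ∧ (D i : ℝ) ≤ 3 * A := fun i => by
    have h5 := hD1 i
    rw [← hA] at h5
    have h6 : (0 : ℝ) ≤ D₀ i := Nat.cast_nonneg _
    rw [hDa]
    constructor <;> linarith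
  obtain ⟨ℓ, hℓ⟩ : ∃ ℓ, ℓ = logb 2 X := ⟨_, rfl⟩
  have hl3 : logb 2 3 ≤ 2 := by
    rw [Real.logb_le_iff_le_rpow (by norm_num) (by norm_num)]
    norm_num
  have hl3' : 0 ≤ logb 2 3 := Real.logb_nonneg (by norm_num) (by norm_num)
  have hℓX : ℓ = logb 2 X₀ - a * logb 2 3 := by
    rw [hℓ, hXd, Real.logb_div hX₀.ne' (by positivity), Real.logb_pow]
  have han : (0 : ℝ) ≤ a := Nat.cast_nonneg a
  have hℓ1 : 3 / 4 * (L : ℝ) ≤ ℓ := by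
    have h5 : (a : ℝ) * logb 2 3 ≤ a * 2 := mul_le_mul_of_nonneg_left hl3 han
    rw [hℓX]
    linarith
  have hℓ2 : ℓ ≤ 4 * L := by
    have h5 : 0 ≤ (a : ℝ) * logb 2 3 := mul_nonneg han hl3'
    rw [hℓX]
    linarith
  -- half of `L`
  obtain ⟨M, hM⟩ : ∃ M : ℕ, M = L / 2 := ⟨_, rfl⟩
  have hM3 : L ≤ 3 * M := by omega
  have hM2 : 2 * M ≤ L := by omega
  have hM3' : (L : ℝ) ≤ 3 * M := by exact_mod_cast hM3
  have hM2' : 2 * (M : ℝ) ≤ L := by exact_mod_cast hM2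
  have hMX : (2 : ℝ) ^ M ≤ X := by
    rw [← Real.rpow_natCast, ← Real.le_logb_iff_rpow_le (by norm_num) hX, ← hℓ]
    linarith
  have hMp : 3 * A ≤ (M : ℝ) ^ (3 / 5 : ℝ) := by
    have h5 : (L : ℝ) ^ (3 / 5 : ℝ) ≤ 3 * (M : ℝ) ^ (3 / 5 : ℝ) := by
      calc (L : ℝ) ^ (3 / 5 : ℝ) ≤ (3 * (M : ℝ)) ^ (3 / 5 : ℝ) := Real.rpow_le_rpow (by positivity) hM3' (by norm_num)
        _ = 3 ^ (3 / 5 : ℝ) * (M : ℝ) ^ (3 / 5 : ℝ) := Real.mul_rpow (by norm_num) (by positivity)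
        _ ≤ 3 * (M : ℝ) ^ (3 / 5 : ℝ) := by
          refine mul_le_mul_of_nonneg_right ?_ (by positivity)
          calc (3 : ℝ) ^ (3 / 5 : ℝ) ≤ 3 ^ (1 : ℝ) := Real.rpow_le_rpow_of_exponent_le (by norm_num) (by norm_num)
            _ = 3 := Real.rpow_one 3
    linarith
  -- the parameters
  obtain ⟨W, hW⟩ : ∃ W : ℝ, W = (w : ℝ) ^ 53 := ⟨_, rfl⟩
  have hW1 : 1 ≤ W := by rw [hW]; exact one_le_pow₀ hw1
  have hWL : 2 ^ 21 * W ≤ L := by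
    refine le_trans ?_ w2
    have e : (w : ℝ) ^ 84 = (w : ℝ) ^ 31 * (w : ℝ) ^ 53 := by rw [← pow_add]
    rw [e, hW]
    refine mul_le_mul_of_nonneg_right (hw21'.trans (le_self_pow₀ hw1 (by norm_num))) (by positivity)
  obtain ⟨z, hz⟩ : ∃ z, z = η * ℓ := ⟨_, rfl⟩
  have hηℓ : z ≤ 1 / 4 * ℓ := by rw [hz]; exact mul_le_mul_of_nonneg_right hη2 (by linarith)
  have hz0 : 0 ≤ z := by rw [hz]; exact mul_nonneg hη.le (by linarith)
  have hz1 : (1 - η) * ℓ = ℓ - z := by rw [hz]; ring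
  obtain ⟨u, hu⟩ : ∃ u, u = (ℓ - z - W) / th0 := ⟨_, rfl⟩
  have hu0 : 0 ≤ u := by
    rw [hu]
    exact div_nonneg (by linarith) hth.le
  have hut : th0 * u = ℓ - z - W := by
    rw [hu]
    field_simp
  obtain ⟨t, ht⟩ : ∃ t : ℕ, t = ⌊u⌋₊ := ⟨_, rfl⟩
  have ht1 : (t : ℝ) ≤ u := by rw [ht]; exact Nat.floor_le hu0
  have ht2 : u < t + 1 := by rw [ht]; exact Nat.lt_floor_add_one u
  have htn : (0 : ℝ) ≤ t := Nat.cast_nonneg t
  have ht3 : th0 * t ≤ ℓ - z - W := by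
    rw [← hut]
    exact mul_le_mul_of_nonneg_left ht1 hth.le
  have ht4 : ℓ - z - W ≤ th0 * t + th0 := by
    rw [← hut]
    have := mul_le_mul_of_nonneg_left ht2.le hth.le
    linarith
  have ht5 : th0 * t ≤ 1 / 4 * t := mul_le_mul_of_nonneg_right hth4.le htn
  have ht6 : 1 / 5 * t ≤ th0 * t := mul_le_mul_of_nonneg_right hth5.le htn
  have htL : (L : ℝ) ≤ t := by linarith
  have htL' : (t : ℝ) ≤ 20 * L := by linarith
  have htt₀ : t₀ ≤ t := by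
    have h' : L ≤ t := by exact_mod_cast htL
    omega
  have hsq : √(t : ℝ) ≤ 5 * √(L : ℝ) := by
    have : √(t : ℝ) ≤ √(25 * (L : ℝ)) := Real.sqrt_le_sqrt (by linarith)
    rw [Real.sqrt_mul (by norm_num), show (25 : ℝ) = 5 ^ 2 by norm_num, Real.sqrt_sq (by norm_num)] at this
    exact this
  have hDt : ∀ i, (t : ℝ) ^ (14 / 25 : ℝ) ≤ D i ∧ (D i : ℝ) ≤ (t : ℝ) ^ (29 / 50 : ℝ) := fun i => by
    constructor
    · refine le_trans ?_ (hD3 i).1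
      calc (t : ℝ) ^ (14 / 25 : ℝ) ≤ (20 * (L : ℝ)) ^ (14 / 25 : ℝ) := Real.rpow_le_rpow htn htL' (by norm_num)
        _ = 20 ^ (14 / 25 : ℝ) * (L : ℝ) ^ (14 / 25 : ℝ) := Real.mul_rpow (by norm_num) (by positivity)
        _ ≤ 20 * (L : ℝ) ^ (14 / 25 : ℝ) := by
          refine mul_le_mul_of_nonneg_right ?_ (by positivity)
          calc (20 : ℝ) ^ (14 / 25 : ℝ) ≤ 20 ^ (1 : ℝ) := Real.rpow_le_rpow_of_exponent_le (by norm_num) (by norm_num)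
            _ = 20 := Real.rpow_one 20
        _ ≤ A := p2
    · refine (hD3 i).2.trans (p3.trans ?_)
      exact Real.rpow_le_rpow (by positivity) htL (by norm_num)
  have hs : ∀ i j, i ≠ j → G * √(t : ℝ) ≤ |(D i : ℝ) - D j| := fun i j hij => by
    have h := hD2 i j hij
    have e1 := mul_le_mul_of_nonneg_left hsq hG.le
    have e2 : (D i : ℝ) - D j = (D₀ i : ℝ) - D₀ j := by rw [hDa, hDa]; ring
    rw [e2]
    linarith
  -- (SHF)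
  have k0 := hM₂ M (by omega) F hIv κ X hκ hMX a D₀ (by linarith) (fun i => by
    have h5 := hD1 i
    rw [← hA] at h5
    linarith)
  rw [hX3] at k0
  have k0' : |ccK F κ X₀ D₀ (fun _ => 0) - ccK F κ X D (fun _ => 0)| ≤ ε / 4 := by rw [hDd]; exact k0
  -- (EEC)
  have k1 := ht₀ t htt₀ F hIv κ X hκ hX (by
    rw [← hℓ]
    have h1η : 0 < 1 - η := by linarith
    rw [mul_assoc, one_div_mul_eq_div, div_le_iff₀ h1η]
    have e : ℓ * (1 - η) = ℓ - z := by rw [hz]; ring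
    rw [e]
    linarith) D hDt hs
  -- (EEG)
  have k2 := h2 F hIv κ X hκ hX t (by
    have h : (w : ℝ) ^ 52 ≤ t := by
      have h5 : (w : ℝ) ^ 52 ≤ (w : ℝ) ^ 84 := pow_le_pow_right₀ hw1 (by norm_num)
      linarith
    exact_mod_cast h) (by
    have h : (t : ℝ) ≤ 100 * (w : ℝ) ^ 88 := by
      have h5 : (2 * (w : ℝ)) ^ 84 = 2 ^ 84 * (w : ℝ) ^ 84 := by rw [mul_pow]
      have h6 : (2 : ℝ) ^ 84 ≤ (w : ℝ) ^ 4 := by
        calc (2 : ℝ) ^ 84 = (2 ^ 21) ^ 4 := by norm_num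
          _ ≤ (w : ℝ) ^ 4 := pow_le_pow_left₀ (by norm_num) hw21' 4
      have h7 : (w : ℝ) ^ 88 = (w : ℝ) ^ 4 * (w : ℝ) ^ 84 := by rw [← pow_add]
      have h8 : (2 : ℝ) ^ 84 * (w : ℝ) ^ 84 ≤ (w : ℝ) ^ 4 * (w : ℝ) ^ 84 :=
        mul_le_mul_of_nonneg_right h6 (by positivity)
      have h9 : 0 ≤ (w : ℝ) ^ 88 := by positivity
      rw [h5] at w3
      rw [← h7] at h8
      linarith
    exact_mod_cast h) (by
    rw [← hℓ]
    have h5 : 18 * (w : ℝ) ^ 80 ≤ 3 / 4 * (η * L) := by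
      have h6 : (w : ℝ) ^ 84 = (w : ℝ) ^ 4 * (w : ℝ) ^ 80 := by rw [← pow_add]
      have h7 : 24 ≤ η * (w : ℝ) ^ 4 := by
        rw [div_le_iff₀ hη] at hw4
        linarith
      have h8 : 24 * (w : ℝ) ^ 80 ≤ η * L := by
        calc 24 * (w : ℝ) ^ 80 ≤ (η * (w : ℝ) ^ 4) * (w : ℝ) ^ 80 := mul_le_mul_of_nonneg_right h7 (by positivity)
          _ = η * (w : ℝ) ^ 84 := by rw [h6]; ring
          _ ≤ η * L := mul_le_mul_of_nonneg_left w2 hη.le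
      linarith
    have h6 : η * (3 / 4 * L) ≤ z := by rw [hz]; exact mul_le_mul_of_nonneg_left hℓ1 hη.le
    linarith) D (fun i => by
    obtain ⟨h5, h6⟩ := hD3 i
    have h7 : (w : ℝ) ^ 45 ≤ D i := w5.trans h5
    have h8 : (2 : ℝ) * D i ≤ (w : ℝ) ^ 48 := by
      have h9 : (6 * 2 ^ 48 : ℝ) * A ≤ 2 ^ 48 * (w : ℝ) ^ 48 := p4.trans w4
      have h10 : (6 * 2 ^ 48 : ℝ) * A = 2 ^ 48 * (6 * A) := by ring
      rw [h10] at h9
      have h11 : 6 * A ≤ (w : ℝ) ^ 48 := le_of_mul_le_mul_left h9 (by positivity)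
      linarith
    exact ⟨by exact_mod_cast h7, by exact_mod_cast h8⟩)
  -- (GMU)
  have hXη : X ^ (1 - η) = (2 : ℝ) ^ (ℓ - z) := by
    rw [← hz1, hℓ, mul_comm, Real.rpow_mul (by norm_num), Real.rpow_logb (by norm_num) (by norm_num) hX]
  rw [← hW] at k2
  have k3 := hM₁ M (by omega) F κ μ hF ((2 : ℝ) ^ (th0 * t + W)) X hMX (by
    rw [hXη, div_le_iff₀ (by norm_num)]
    have e : (2 : ℝ) ^ (th0 * t + W) * 2 = (2 : ℝ) ^ (th0 * t + W + 1) := by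
      rw [Real.rpow_add (by norm_num) (th0 * t + W) 1, Real.rpow_one]
    rw [e]
    exact Real.rpow_le_rpow_of_exponent_le (by norm_num) (by linarith)) (by
    rw [hXη]
    have h5 : (2 : ℝ) ^ (th0 * t + W) ≤ (2 : ℝ) ^ (ℓ - z) :=
      Real.rpow_le_rpow_of_exponent_le (by norm_num) (by linarith)
    have h6 : 0 < (2 : ℝ) ^ (ℓ - z) := by positivity
    linarith) D (fun i => (hD3 i).2.trans hMp)
  rw [abs_le] at k0' k1 k2 k3 ⊢
  constructor <;> linarith [k0'.1, k0'.2, k1.1, k1.2, k2.1, k2.2, k3.1, k3.2]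

end Pool.Agent.J4H98.KP
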